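import Mathlib
import Pool.Agent.H.MP_e6b4fa_co.Lower

/-!
# The order of magnitude of the `H`-discrepancy, for every fixed graph `H`

`f_H(n) = Θ(n ^ (v(H) - 1/2))` for every graph `H` with at least one edge, and `f_H(n) = 0` if `H`
has no edge.
-/

namespace Pool.Agent.Results.MP_e6b4fa_co.OrderOfSubgraphDiscrepancy

open Filter Asymptotics SimpleGraph

/-- The `H`-discrepancy of `G`: the maximum over all vertex subsets `S` of
`|h(G[S]) - h(Gᶜ[S])|`, where `h(F) = F.copyCount H` is the number of (not necessarily induced)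
subgraphs of `F` isomorphic to `H`. -/
noncomputable def disc {W V : Type*} [Fintype V] (H : SimpleGraph W) (G : SimpleGraph V) : ℕ :=
  (Finset.univ : Finset (Finset V)).sup fun S =>
    (((G.induce (S : Set V)).copyCount H : ℤ) -
      ((Gᶜ.induce (S : Set V)).copyCount H : ℤ)).natAbs

/-- `f_H(n)`: the minimum of the `H`-discrepancy over all graphs on `n` vertices. -/
noncomputable def f {W : Type*} (H : SimpleGraph W) (n : ℕ) : ℕ :=
  ⨅ G : SimpleGraph (Fin n), disc H G

theorem le_disc {W V : Type*} [Fintype V] (H : SimpleGraph W) (G : SimpleGraph V)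
    (S : Finset V) :
    |((G.induce (S : Set V)).copyCount H : ℝ) - ((Gᶜ.induce (S : Set V)).copyCount H : ℝ)| ≤
      (disc H G : ℝ) := by
  have h1 : (((G.induce (S : Set V)).copyCount H : ℤ) -
      ((Gᶜ.induce (S : Set V)).copyCount H : ℤ)).natAbs ≤ disc H G :=
    Finset.le_sup (f := fun S : Finset V => (((G.induce (S : Set V)).copyCount H : ℤ) -
      ((Gᶜ.induce (S : Set V)).copyCount H : ℤ)).natAbs) (Finset.mem_univ S)
  have h2 : ((((G.induce (S : Set V)).copyCount H : ℤ) -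
      ((Gᶜ.induce (S : Set V)).copyCount H : ℤ)).natAbs : ℝ) ≤ (disc H G : ℝ) := by
    exact_mod_cast h1
  rw [Nat.cast_natAbs] at h2
  push_cast at h2
  exact h2

theorem disc_le {W V : Type*} [Fintype V] (H : SimpleGraph W) (G : SimpleGraph V) (C : ℝ)
    (hC0 : 0 ≤ C)
    (hC : ∀ S : Finset V, |((G.induce (S : Set V)).copyCount H : ℝ) -
      ((Gᶜ.induce (S : Set V)).copyCount H : ℝ)| ≤ C) : (disc H G : ℝ) ≤ C := by
  have h1 : disc H G ≤ ⌊C⌋₊ := by
    refine Finset.sup_le fun S _ => ?_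
    rw [Nat.le_floor_iff hC0, Nat.cast_natAbs]
    push_cast
    exact hC S
  calc (disc H G : ℝ) ≤ (⌊C⌋₊ : ℝ) := by exact_mod_cast h1
    _ ≤ C := Nat.floor_le hC0

theorem f_le {W : Type*} (H : SimpleGraph W) (n : ℕ) (G : SimpleGraph (Fin n)) :
    f H n ≤ disc H G := ciInf_le (OrderBot.bddBelow _) G

theorem exists_f_eq {W : Type*} (H : SimpleGraph W) (n : ℕ) :
    ∃ G : SimpleGraph (Fin n), f H n = disc H G := by
  have h : f H n ∈ Set.range (fun G : SimpleGraph (Fin n) => disc H G) :=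
    Nat.sInf_mem (Set.range_nonempty _)
  obtain ⟨G, hG⟩ := h
  exact ⟨G, hG.symm⟩

theorem rpow_eq {k : ℕ} (hk : 1 ≤ k) {n : ℕ} (hn : 1 ≤ n) :
    (n : ℝ) ^ (k - 1) * Real.sqrt n = (n : ℝ) ^ ((k : ℝ) - 1 / 2) := by
  have hnpos : (0 : ℝ) < n := by exact_mod_cast hn
  rw [Real.sqrt_eq_rpow, ← Real.rpow_natCast, ← Real.rpow_add hnpos, Nat.cast_sub hk]
  congr 1
  push_cast
  ring

/-- **Main theorem.** For every finite graph `H` with at least one edge,
`f_H(n) = Θ(n ^ (v(H) - 1/2))`; if `H` has no edge then `f_H(n) = 0` for all `n`. -/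
theorem result {W : Type*} [Fintype W] (H : SimpleGraph W) :
    (H ≠ ⊥ → (fun n : ℕ => (f H n : ℝ)) =Θ[atTop]
        (fun n : ℕ => (n : ℝ) ^ ((Fintype.card W : ℝ) - 1 / 2))) ∧
      (H = ⊥ → ∀ n, f H n = 0) := by
  classical
  have hfin : Finite (H ≃g H) :=
    Finite.of_injective (fun e : H ≃g H => (e : W → W)) DFunLike.coe_injective
  let _ : Fintype (H ≃g H) := Fintype.ofFinite _
  have hA : 0 < Fintype.card (H ≃g H) := Fintype.card_pos_iff.2 ⟨Iso.refl⟩
  have hAR : (0 : ℝ) < Fintype.card (H ≃g H) := by exact_mod_cast hA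
  have hA1 : (1 : ℝ) ≤ Fintype.card (H ≃g H) := by exact_mod_cast hA
  constructor
  · intro hH
    obtain ⟨a, b, hab⟩ := ne_bot_iff_exists_adj.1 hH
    have hk : 2 ≤ Fintype.card W := Fintype.one_lt_card_iff.2 ⟨a, b, hab.ne⟩
    constructor
    · -- upper bound
      refine IsBigO.of_bound (2 * (Fintype.card W : ℝ) ^ 2) ?_
      filter_upwards [eventually_ge_atTop 1] with n hn
      obtain ⟨G, hG⟩ := Pool.Agent.H.MP_e6b4fa_co.exists_graph_all_small H hk n hn
      rw [Real.norm_of_nonneg (Nat.cast_nonneg _),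
        Real.norm_of_nonneg (Real.rpow_nonneg (Nat.cast_nonneg _) _),
        ← rpow_eq (by omega) hn]
      have h1 : (f H n : ℝ) ≤ (disc H G : ℝ) := by exact_mod_cast f_le H n G
      refine h1.trans (disc_le H G _ (by positivity) fun S => ?_)
      refine le_trans ?_ (hG S)
      rw [Pool.Agent.H.MP_e6b4fa_co.D_eq, abs_mul, abs_of_pos hAR]
      exact le_mul_of_one_le_right (abs_nonneg _) hA1
    · -- lower bound
      obtain ⟨c, hc, n₀, hlow⟩ := Pool.Agent.H.MP_e6b4fa_co.lower_main H hH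
      refine IsBigO.of_bound ((Fintype.card (H ≃g H) : ℝ) / c) ?_
      filter_upwards [eventually_ge_atTop 1, eventually_ge_atTop n₀] with n hn hn0
      rw [Real.norm_of_nonneg (Nat.cast_nonneg _),
        Real.norm_of_nonneg (Real.rpow_nonneg (Nat.cast_nonneg _) _),
        ← rpow_eq (by omega) hn]
      obtain ⟨G, hG⟩ := exists_f_eq H n
      have h1 := hlow n hn0 G ((disc H G : ℝ) * (Fintype.card (H ≃g H) : ℝ)) (by
        intro X
        rw [Pool.Agent.H.MP_e6b4fa_co.D_eq, abs_mul, abs_of_pos hAR]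
        exact mul_le_mul_of_nonneg_right (le_disc H G X) hAR.le)
      rw [← hG] at h1
      rw [div_mul_eq_mul_div, le_div_iff₀ hc]
      linarith
  · rintro rfl n
    obtain ⟨G⟩ : Nonempty (SimpleGraph (Fin n)) := inferInstance
    have h1 : (disc (⊥ : SimpleGraph W) G : ℝ) ≤ 0 := by
      refine disc_le _ G 0 le_rfl fun S => ?_
      have h2 := Pool.Agent.H.MP_e6b4fa_co.D_eq (⊥ : SimpleGraph W) G S
      have h3 : Pool.Agent.H.MP_e6b4fa_co.D (⊥ : SimpleGraph W) G S = 0 := by
        unfold Pool.Agent.H.MP_e6b4fa_co.D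
        refine Finset.sum_eq_zero fun φ _ => ?_
        rw [Pool.Agent.H.MP_e6b4fa_co.hom01_bot, Pool.Agent.H.MP_e6b4fa_co.hom01_bot, sub_self]
      rw [h3] at h2
      rcases mul_eq_zero.1 h2.symm with h4 | h4
      · rw [h4, abs_zero]
      · exact absurd h4 hAR.ne'
    have h2 : disc (⊥ : SimpleGraph W) G ≤ 0 := by exact_mod_cast h1
    exact Nat.le_zero.1 ((f_le _ n G).trans h2)

end Pool.Agent.Results.MP_e6b4fa_co.OrderOfSubgraphDiscrepancy
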